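import Pool.Agent.LibSN3.Graph

/-!
# A checker for unit propagation refutations, and its soundness

Literals are numbers: `2 v + 1` is the variable `v`, `2 v` its negation. Clauses and lists of hints
are numbers written in base `4096`.
-/

set_option autoImplicit false

namespace Pool.Agent.LibSN3

/-- binary trees of pairs of numbers -/
inductive Tr : Type
  | lf (c w : ℕ) : Tr
  | nd (l r : Tr) : Tr

/-- lookup -/
noncomputable def Tr.get1 (t : Tr) : ℕ → ℕ :=
  Tr.rec (fun c _ _ => c)
    (fun _ _ gl gr i => cond (Nat.beq (Nat.land i 1) 0) (gl (Nat.shiftRight i 1))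
      (gr (Nat.shiftRight i 1))) t

/-- lookup -/
noncomputable def Tr.get2 (t : Tr) : ℕ → ℕ :=
  Tr.rec (fun _ w _ => w)
    (fun _ _ gl gr i => cond (Nat.beq (Nat.land i 1) 0) (gl (Nat.shiftRight i 1))
      (gr (Nat.shiftRight i 1))) t

/-- the list coded by a number -/
def dec : ℕ → ℕ → List ℕ
  | 0, _ => []
  | f + 1, c => cond (Nat.beq (Nat.land c 4095) 0) []
      (Nat.land c 4095 :: dec f (Nat.shiftRight c 12))

/-- bit test -/
def tb (A l : ℕ) : Bool := Nat.beq (Nat.land (Nat.shiftRight A l) 1) 1

/-- the negation of a literal -/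
def ng (l : ℕ) : ℕ := Nat.xor l 1

/-- add a literal to a set of literals -/
def ins (A l : ℕ) : ℕ := Nat.lor A (Nat.shiftLeft 1 l)

/-- unit propagation in one clause: `0` conflict, `1` failure, otherwise the unit -/
def scan (A : ℕ) : List ℕ → ℕ → ℕ
  | [], u => u
  | l :: L, u => cond (tb A (ng l)) (scan A L u) (cond (Nat.beq u 0) (scan A L l) 1)

/-- unit propagation along a list of hints -/
def rup (db : ℕ → ℕ) : List ℕ → ℕ → Bool
  | [], _ => false
  | h :: H, A => cond (Nat.beq (scan A (dec 40 (db h)) 0) 0) true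
      (cond (Nat.beq (scan A (dec 40 (db h)) 0) 1) false
        (rup db H (ins A (scan A (dec 40 (db h)) 0))))

/-- add the negations of literals -/
def negs : List ℕ → ℕ → ℕ
  | [], A => A
  | l :: L, A => negs L (ins A (ng l))

/-- all hints are smaller than `i` -/
def allLt (i : ℕ) : List ℕ → Bool
  | [] => true
  | h :: H => cond (Nat.ble i h) false (allLt i H)

/-- check of a derived clause -/
def stepOK (db : ℕ → ℕ) (c w i : ℕ) : Bool :=
  cond (allLt i (dec 400 w)) (rup db (dec 400 w) (negs (dec 40 c) 0)) false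

theorem tb_eq (A l : ℕ) : tb A l = A.testBit l := by
  have h : (Nat.land (Nat.shiftRight A l) 1) = (A >>> l) % 2 := by
    show (A >>> l) &&& 1 = (A >>> l) % 2
    exact Nat.and_one_is_mod _
  unfold tb
  rw [h, Nat.testBit_eq_decide_div_mod_eq, Nat.shiftRight_eq_div_pow]
  by_cases h1 : A / 2 ^ l % 2 = 1
  · rw [h1]; rfl
  · have : Nat.beq (A / 2 ^ l % 2) 1 = false := by
      cases h2 : Nat.beq (A / 2 ^ l % 2) 1 with
      | false => rfl
      | true => exact absurd (Nat.eq_of_beq_eq_true h2) h1
    rw [this]; exact (decide_eq_false h1).symm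

theorem tb_ins (A l m : ℕ) : tb (ins A l) m = true ↔ tb A m = true ∨ m = l := by
  rw [tb_eq, tb_eq]
  show (A ||| (1 <<< l)).testBit m = true ↔ _
  rw [Nat.testBit_or, Bool.or_eq_true, Nat.one_shiftLeft, Nat.testBit_two_pow, decide_eq_true_iff]
  exact or_congr Iff.rfl ⟨Eq.symm, Eq.symm⟩

theorem ng_div (l : ℕ) : ng l / 2 = l / 2 := by
  show (l ^^^ 1) / 2 = l / 2
  have h1 : (1 : ℕ) / 2 = 0 := rfl
  rw [Nat.xor_div_two, h1, Nat.xor_zero]

theorem ng_mod (l : ℕ) : ng l % 2 = 1 - l % 2 := by
  show (l ^^^ 1) % 2 = 1 - l % 2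
  have h := Nat.xor_mod_two_eq (m := l) (n := 1)
  omega

/-- truth of a literal -/
def Holds (val : ℕ → Prop) (l : ℕ) : Prop := (l % 2 = 1 ∧ val (l / 2)) ∨ (l % 2 = 0 ∧ ¬ val (l / 2))

variable {val : ℕ → Prop}

theorem holds_ng (l : ℕ) : Holds val (ng l) ↔ ¬ Holds val l := by
  unfold Holds
  rw [ng_div, ng_mod]
  rcases Nat.mod_two_eq_zero_or_one l with h | h <;> rw [h] <;> simp

/-- truth of a clause -/
def CTrue (val : ℕ → Prop) (c : ℕ) : Prop := ∃ l ∈ dec 40 c, Holds val l

theorem dec_ne (f c l : ℕ) (h : l ∈ dec f c) : l ≠ 0 := by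
  induction f generalizing c with
  | zero => exact absurd h List.not_mem_nil
  | succ f ih =>
    have hE : dec (f + 1) c = cond (Nat.beq (Nat.land c 4095) 0) []
      (Nat.land c 4095 :: dec f (Nat.shiftRight c 12)) := rfl
    rw [hE] at h
    cases h1 : Nat.beq (Nat.land c 4095) 0 with
    | true =>
      rw [h1] at h
      exact absurd h List.not_mem_nil
    | false =>
      rw [h1] at h
      rcases List.mem_cons.1 h with h2 | h2
      · rintro rfl
        rw [← h2] at h1
        exact Bool.noConfusion h1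
      · exact ih _ h2

theorem scan_sound {A : ℕ} (hA : ∀ l, tb A l = true → Holds val l) (L : List ℕ)
    (hL : ∀ l ∈ L, l ≠ 0) (u : ℕ)
    (h : (∃ l ∈ L, Holds val l) ∨ (u ≠ 0 ∧ Holds val u)) :
    (scan A L u ≠ 0) ∧ (scan A L u ≠ 1 → Holds val (scan A L u)) := by
  induction L generalizing u with
  | nil =>
    rcases h with ⟨l, hl, _⟩ | h
    · exact absurd hl List.not_mem_nil
    · exact ⟨h.1, fun _ => h.2⟩
  | cons l L ih =>
    have hE : scan A (l :: L) u = cond (tb A (ng l)) (scan A L u)
      (cond (Nat.beq u 0) (scan A L l) 1) := rfl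
    have hL' : ∀ l ∈ L, l ≠ 0 := fun m hm => hL m (List.mem_cons_of_mem _ hm)
    rw [hE]
    cases h1 : tb A (ng l) with
    | true =>
      refine ih hL' u ?_
      have h2 : ¬ Holds val l := (holds_ng l).1 (hA _ h1)
      rcases h with ⟨m, hm, hm'⟩ | h
      · rcases List.mem_cons.1 hm with rfl | hm
        · exact absurd hm' h2
        · exact Or.inl ⟨m, hm, hm'⟩
      · exact Or.inr h
    | false =>
      cases h2 : Nat.beq u 0 with
      | false => exact ⟨Nat.one_ne_zero, fun h3 => absurd rfl h3⟩
      | true =>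
        have hu : u = 0 := Nat.eq_of_beq_eq_true h2
        refine ih hL' l ?_
        rcases h with ⟨m, hm, hm'⟩ | h
        · rcases List.mem_cons.1 hm with rfl | hm
          · exact Or.inr ⟨hL m List.mem_cons_self, hm'⟩
          · exact Or.inl ⟨m, hm, hm'⟩
        · exact absurd hu h.1

theorem rup_sound {db : ℕ → ℕ} (H : List ℕ) (hdb : ∀ h ∈ H, CTrue val (db h)) (A : ℕ)
    (hA : ∀ l, tb A l = true → Holds val l) : rup db H A = false := by
  induction H generalizing A with
  | nil => rfl
  | cons h H ih =>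
    obtain ⟨h0, h1⟩ := scan_sound hA (dec 40 (db h)) (dec_ne 40 (db h)) 0
      (Or.inl (hdb h List.mem_cons_self))
    have hE : rup db (h :: H) A = cond (Nat.beq (scan A (dec 40 (db h)) 0) 0) true
      (cond (Nat.beq (scan A (dec 40 (db h)) 0) 1) false
        (rup db H (ins A (scan A (dec 40 (db h)) 0)))) := rfl
    rw [hE]
    generalize scan A (dec 40 (db h)) 0 = r at h0 h1 ⊢
    cases h2 : Nat.beq r 0 with
    | true => exact absurd (Nat.eq_of_beq_eq_true h2) h0
    | false =>
      cases h3 : Nat.beq r 1 with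
      | true => rfl
      | false =>
        have h4 : Holds val r := h1 (fun h5 => by rw [h5] at h3; exact Bool.noConfusion h3)
        refine ih (fun x hx => hdb x (List.mem_cons_of_mem _ hx)) _ ?_
        intro l hl
        rcases (tb_ins A r l).1 hl with h5 | rfl
        · exact hA l h5
        · exact h4

theorem negs_sound (L : List ℕ) (A : ℕ) (l : ℕ) (h : tb (negs L A) l = true) :
    tb A l = true ∨ ∃ m ∈ L, l = ng m := by
  induction L generalizing A with
  | nil => exact Or.inl h
  | cons m L ih =>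
    rcases ih (ins A (ng m)) h with h1 | ⟨x, hx, hx'⟩
    · rcases (tb_ins A (ng m) l).1 h1 with h2 | h2
      · exact Or.inl h2
      · exact Or.inr ⟨m, List.mem_cons_self, h2⟩
    · exact Or.inr ⟨x, List.mem_cons_of_mem _ hx, hx'⟩

theorem allLt_sound (i : ℕ) (H : List ℕ) (h : allLt i H = true) : ∀ x ∈ H, x < i := by
  induction H with
  | nil => intro x hx; exact absurd hx List.not_mem_nil
  | cons a H ih =>
    have hE : allLt i (a :: H) = cond (Nat.ble i a) false (allLt i H) := rfl
    rw [hE] at h
    cases h1 : Nat.ble i a with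
    | true => rw [h1] at h; exact Bool.noConfusion h
    | false =>
      rw [h1] at h
      intro x hx
      rcases List.mem_cons.1 hx with rfl | hx
      · by_contra h2
        have h3 := Nat.ble_eq_true_of_le (Nat.le_of_not_lt h2)
        rw [h3] at h1
        exact Bool.noConfusion h1
      · exact ih h x hx

theorem zero_tb (l : ℕ) : ¬ tb 0 l = true := by
  rw [tb_eq]
  simp

theorem stepOK_sound {db : ℕ → ℕ} {c w i : ℕ} (h : stepOK db c w i = true)
    (hdb : ∀ j, j < i → j ≠ 0 → CTrue val (db j)) : CTrue val c := by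
  have hE : stepOK db c w i = cond (allLt i (dec 400 w))
    (rup db (dec 400 w) (negs (dec 40 c) 0)) false := rfl
  rw [hE] at h
  cases h1 : allLt i (dec 400 w) with
  | false => rw [h1] at h; exact Bool.noConfusion h
  | true =>
    rw [h1] at h
    by_contra hc
    have h2 := rup_sound (val := val) (db := db) (dec 400 w)
      (fun x hx => hdb x (allLt_sound i _ h1 x hx) (dec_ne 400 w x hx))
      (negs (dec 40 c) 0) (fun l hl => by
        rcases negs_sound _ _ _ hl with h3 | ⟨m, hm, rfl⟩
        · exact absurd h3 (zero_tb l)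
        · exact (holds_ng m).2 fun h4 => hc ⟨m, hm, h4⟩)
    have h3 : rup db (dec 400 w) (negs (dec 40 c) 0) = true := h
    rw [h2] at h3
    exact Bool.noConfusion h3

/-- all derived clauses with numbers `i, …, i + k - 1` are checked -/
noncomputable def runOK (t : Tr) : ℕ → ℕ → Bool
  | 0, _ => true
  | k + 1, i => cond (stepOK t.get1 (t.get1 i) (t.get2 i) i) (runOK t k (i + 1)) false

theorem runOK_sound (t : Tr) (k i : ℕ) (h : runOK t k i = true) (j : ℕ) (h1 : i ≤ j)
    (h2 : j < i + k) : stepOK t.get1 (t.get1 j) (t.get2 j) j = true := by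
  induction k generalizing i with
  | zero => omega
  | succ k ih =>
    have hE : runOK t (k + 1) i =
      cond (stepOK t.get1 (t.get1 i) (t.get2 i) i) (runOK t k (i + 1)) false := rfl
    rw [hE] at h
    cases h3 : stepOK t.get1 (t.get1 i) (t.get2 i) i with
    | false => rw [h3] at h; exact Bool.noConfusion h
    | true =>
      rw [h3] at h
      by_cases h4 : j = i
      · rw [h4]; exact h3
      · exact ih (i + 1) h (by omega) (by omega)

/-- the clauses with numbers `1, …, n` are true if the clauses with numbers below `m` are and the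
others are checked -/
theorem all_true (t : Tr) (m n : ℕ) (h0 : ∀ i, i ≠ 0 → i < m → CTrue val (t.get1 i))
    (h : ∀ i, m ≤ i → i ≤ n → stepOK t.get1 (t.get1 i) (t.get2 i) i = true) (i : ℕ) (hi : i ≠ 0)
    (hin : i ≤ n) : CTrue val (t.get1 i) := by
  induction i using Nat.strong_induction_on with
  | _ i ih =>
    by_cases h1 : i < m
    · exact h0 i hi h1
    · exact stepOK_sound (h i (by omega) hin) fun j hj hj0 => ih j hj hj0 (by omega)

theorem not_CTrue_zero : ¬ CTrue val 0 := by
  rintro ⟨l, hl, _⟩
  exact absurd hl List.not_mem_nil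

end Pool.Agent.LibSN3
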