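import Mathlib

/-!
# Directed acyclic graphs, stack layouts, outerplanarity
-/

set_option autoImplicit false

namespace Pool.Agent.LibSN3

variable {V : Type}

/-- `E` is the edge relation of a directed acyclic graph: there is no closed directed walk -/
def IsDAG (E : V → V → Prop) : Prop := ∀ v, ¬ Relation.TransGen E v v

/-- In the order `lt` the (undirected) pairs `a b` and `c d` cross with `a` the first point:
`a < c < b < d`. -/
def Cross (lt : V → V → Prop) (a b c d : V) : Prop := lt a c ∧ lt c b ∧ lt b d

/-- Outerplanarity: the vertices can be placed on a circle (here: linearly ordered) so that no two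
edges, drawn as chords, cross. The directions of the edges are ignored. -/
def Outerplanar (E : V → V → Prop) : Prop :=
  ∃ lt : V → V → Prop, IsStrictTotalOrder V lt ∧
    ∀ a b c d, (E a b ∨ E b a) → (E c d ∨ E d c) → ¬ Cross lt a b c d

/-- A `k`-stack layout: a topological order and a `k`-colouring of the edges such that edges of the
same colour do not cross. -/
def HasStackLayout (E : V → V → Prop) (k : ℕ) : Prop :=
  ∃ (lt : V → V → Prop) (col : V → V → Fin k), IsStrictTotalOrder V lt ∧
    (∀ a b, E a b → lt a b) ∧
    ∀ a b c d, E a b → E c d → col a b = col c d → ¬ Cross lt a b c d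

end Pool.Agent.LibSN3
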