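import Pool.Agent.LibSN3.Data

/-!
# Evaluation of the checker
-/

set_option autoImplicit false

namespace Pool.Agent.LibSN3

theorem tabC : tabOK VT = true := by decide +kernel

theorem ini1 : initOK CT VT.get1 150 1 = true := by decide +kernel

theorem ini151 : initOK CT VT.get1 150 151 = true := by decide +kernel

theorem ini301 : initOK CT VT.get1 150 301 = true := by decide +kernel

theorem ini451 : initOK CT VT.get1 150 451 = true := by decide +kernel

theorem ini601 : initOK CT VT.get1 150 601 = true := by decide +kernel

theorem ini751 : initOK CT VT.get1 150 751 = true := by decide +kernel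

theorem ini901 : initOK CT VT.get1 150 901 = true := by decide +kernel

theorem ini1051 : initOK CT VT.get1 26 1051 = true := by decide +kernel

theorem run1077 : runOK CT 150 1077 = true := by decide +kernel

theorem run1227 : runOK CT 150 1227 = true := by decide +kernel

theorem run1377 : runOK CT 150 1377 = true := by decide +kernel

theorem run1527 : runOK CT 150 1527 = true := by decide +kernel

theorem run1677 : runOK CT 150 1677 = true := by decide +kernel

theorem run1827 : runOK CT 150 1827 = true := by decide +kernel

theorem run1977 : runOK CT 150 1977 = true := by decide +kernel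

theorem run2127 : runOK CT 150 2127 = true := by decide +kernel

theorem run2277 : runOK CT 150 2277 = true := by decide +kernel

theorem run2427 : runOK CT 15 2427 = true := by decide +kernel

theorem allInit (i : ℕ) (h0 : i ≠ 0) (h1 : i < 1077) :
    iOK VT.get1 (CT.get1 i) (CT.get2 i) = true := by
  by_cases c1 : i < 151
  · exact initOK_sound CT VT.get1 150 1 ini1 i (by omega) (by omega)
  by_cases c151 : i < 301
  · exact initOK_sound CT VT.get1 150 151 ini151 i (by omega) (by omega)
  by_cases c301 : i < 451
  · exact initOK_sound CT VT.get1 150 301 ini301 i (by omega) (by omega)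
  by_cases c451 : i < 601
  · exact initOK_sound CT VT.get1 150 451 ini451 i (by omega) (by omega)
  by_cases c601 : i < 751
  · exact initOK_sound CT VT.get1 150 601 ini601 i (by omega) (by omega)
  by_cases c751 : i < 901
  · exact initOK_sound CT VT.get1 150 751 ini751 i (by omega) (by omega)
  by_cases c901 : i < 1051
  · exact initOK_sound CT VT.get1 150 901 ini901 i (by omega) (by omega)
  exact initOK_sound CT VT.get1 26 1051 ini1051 i (by omega) (by omega)

theorem allRun (i : ℕ) (h0 : 1077 ≤ i) (h1 : i ≤ 2441) :
    stepOK CT.get1 (CT.get1 i) (CT.get2 i) i = true := by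
  by_cases c1077 : i < 1227
  · exact runOK_sound CT 150 1077 run1077 i (by omega) (by omega)
  by_cases c1227 : i < 1377
  · exact runOK_sound CT 150 1227 run1227 i (by omega) (by omega)
  by_cases c1377 : i < 1527
  · exact runOK_sound CT 150 1377 run1377 i (by omega) (by omega)
  by_cases c1527 : i < 1677
  · exact runOK_sound CT 150 1527 run1527 i (by omega) (by omega)
  by_cases c1677 : i < 1827
  · exact runOK_sound CT 150 1677 run1677 i (by omega) (by omega)
  by_cases c1827 : i < 1977
  · exact runOK_sound CT 150 1827 run1827 i (by omega) (by omega)
  by_cases c1977 : i < 2127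
  · exact runOK_sound CT 150 1977 run1977 i (by omega) (by omega)
  by_cases c2127 : i < 2277
  · exact runOK_sound CT 150 2127 run2127 i (by omega) (by omega)
  by_cases c2277 : i < 2427
  · exact runOK_sound CT 150 2277 run2277 i (by omega) (by omega)
  exact runOK_sound CT 15 2427 run2427 i (by omega) (by omega)

theorem lastC : CT.get1 2441 = 0 := by decide +kernel

/-- no uniform order and colouring exist -/
theorem no_mod (m : Mod) : False := by
  have h := all_true (val := fun v => vv m (VT.get1 v)) CT 1077 2441
    (fun i h0 h1 => iOK_sound m VT.get1 (tabOK_sound VT tabC) _ _ (allInit i h0 h1))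
    (fun i h0 h1 => allRun i h0 h1) 2441 (by norm_num) le_rfl
  rw [lastC] at h
  exact not_CTrue_zero h

end Pool.Agent.LibSN3
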