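import Pool.Agent.LibSN3.Defs

/-!
# The graphs `G(α)`

Base vertex `p0`; for every copy index `a` a triangle `y → v → x`, `y → x` (`y = p1 0 a`,
`x = p1 1 a`); at `x` for every `b` a fan `p2 _ a b`; at three vertices of this fan, for every `c`,
again a fan `p3 s _ a b c`. The fan has the vertices (slots) `0` (root), `1, .., 5` in the cyclic order
of the outer cycle.
-/

set_option autoImplicit false

namespace Pool.Agent.LibSN3

/-- vertices -/
inductive Vx (α : Type) : Type
  | p0 : Vx α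
  | p1 (x : Fin 2) (a : α) : Vx α
  | p2 (x : Fin 5) (a b : α) : Vx α
  | p3 (s : Fin 3) (x : Fin 5) (a b c : α) : Vx α
  deriving DecidableEq

/-- edges -/
inductive Ed (α : Type) : Type
  | e1 (i : Fin 3) (a : α) : Ed α
  | e2 (i : Fin 9) (a b : α) : Ed α
  | e3 (s : Fin 3) (i : Fin 9) (a b c : α) : Ed α
  deriving DecidableEq

/-- the slot (minus one) of the fan to which the fan number `s` is attached -/
def par (s : Fin 3) : Fin 5 := ⟨2 * s.val, by omega⟩

/-- tails of the edges of the fan -/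
def At : ℕ → ℕ
  | 0 => 1 | 1 => 5 | 2 => 0 | 3 => 1 | 4 => 5 | 5 => 5 | 6 => 3 | 7 => 1 | _ => 3

/-- heads of the edges of the fan -/
def Ah : ℕ → ℕ
  | 0 => 0 | 1 => 0 | 2 => 3 | 3 => 3 | 4 => 3 | 5 => 4 | 6 => 4 | 7 => 2 | _ => 2

/-- tails of the edges of the triangle -/
def Tt : ℕ → ℕ
  | 0 => 1 | 1 => 0 | _ => 1

/-- heads of the edges of the triangle -/
def Th : ℕ → ℕ
  | 0 => 0 | 1 => 2 | _ => 2

variable {α β : Type}

/-- the vertices of the triangle `a` -/
def n1 (k : ℕ) (a : α) : Vx α :=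
  match k with
  | 0 => .p0
  | k + 1 => .p1 (Fin.ofNat 2 k) a

/-- the vertices of the fan `a, b` -/
def n2 (k : ℕ) (a b : α) : Vx α :=
  match k with
  | 0 => .p1 1 a
  | k + 1 => .p2 (Fin.ofNat 5 k) a b

/-- the vertices of the fan `a, b, c` number `s` -/
def n3 (s : Fin 3) (k : ℕ) (a b c : α) : Vx α :=
  match k with
  | 0 => .p2 (par s) a b
  | k + 1 => .p3 s (Fin.ofNat 5 k) a b c

/-- tail of an edge -/
def Ed.tl : Ed α → Vx α
  | .e1 i a => n1 (Tt i.val) a
  | .e2 i a b => n2 (At i.val) a b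
  | .e3 s i a b c => n3 s (if s.val = 1 then Ah i.val else At i.val) a b c

/-- head of an edge -/
def Ed.hd : Ed α → Vx α
  | .e1 i a => n1 (Th i.val) a
  | .e2 i a b => n2 (Ah i.val) a b
  | .e3 s i a b c => n3 s (if s.val = 1 then At i.val else Ah i.val) a b c

/-- the edge relation -/
def GE (α : Type) (p q : Vx α) : Prop := ∃ e : Ed α, e.tl = p ∧ e.hd = q

def Vx.map (f : α → β) : Vx α → Vx β
  | .p0 => .p0
  | .p1 x a => .p1 x (f a)
  | .p2 x a b => .p2 x (f a) (f b)
  | .p3 s x a b c => .p3 s x (f a) (f b) (f c)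

def Ed.map (f : α → β) : Ed α → Ed β
  | .e1 i a => .e1 i (f a)
  | .e2 i a b => .e2 i (f a) (f b)
  | .e3 s i a b c => .e3 s i (f a) (f b) (f c)

theorem n1_map (f : α → β) (k : ℕ) (a : α) : (n1 k a).map f = n1 k (f a) := by
  cases k <;> rfl

theorem n2_map (f : α → β) (k : ℕ) (a b : α) : (n2 k a b).map f = n2 k (f a) (f b) := by
  cases k <;> rfl

theorem n3_map (f : α → β) (s : Fin 3) (k : ℕ) (a b c : α) :
    (n3 s k a b c).map f = n3 s k (f a) (f b) (f c) := by
  cases k <;> rfl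

theorem tl_map (f : α → β) (e : Ed α) : (e.map f).tl = e.tl.map f := by
  cases e with
  | e1 i a => exact (n1_map f _ a).symm
  | e2 i a b => exact (n2_map f _ a b).symm
  | e3 s i a b c => exact (n3_map f s _ a b c).symm

theorem hd_map (f : α → β) (e : Ed α) : (e.map f).hd = e.hd.map f := by
  cases e with
  | e1 i a => exact (n1_map f _ a).symm
  | e2 i a b => exact (n2_map f _ a b).symm
  | e3 s i a b c => exact (n3_map f s _ a b c).symm

instance [Finite α] : Finite (Vx α) := by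
  have : Function.Injective (fun p : Vx α => match p with
    | .p0 => (Sum.inl () : Unit ⊕ (Fin 2 × α) ⊕ (Fin 5 × α × α) ⊕ (Fin 3 × Fin 5 × α × α × α))
    | .p1 x a => Sum.inr (Sum.inl (x, a))
    | .p2 x a b => Sum.inr (Sum.inr (Sum.inl (x, a, b)))
    | .p3 s x a b c => Sum.inr (Sum.inr (Sum.inr (s, x, a, b, c)))) := by
    intro p q h
    cases p <;> cases q <;> simp_all
  exact Finite.of_injective _ this

instance [Finite α] : Finite (Ed α) := by
  have : Function.Injective (fun p : Ed α => match p with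
    | .e1 i a => (Sum.inl (i, a) : (Fin 3 × α) ⊕ (Fin 9 × α × α) ⊕ (Fin 3 × Fin 9 × α × α × α))
    | .e2 i a b => Sum.inr (Sum.inl (i, a, b))
    | .e3 s i a b c => Sum.inr (Sum.inr (s, i, a, b, c))) := by
    intro p q h
    cases p <;> cases q <;> simp_all
  exact Finite.of_injective _ this

/-! ### Acyclicity -/

theorem dag_of_rank {V : Type} {E : V → V → Prop} (r : V → ℤ) (h : ∀ a b, E a b → r a < r b) :
    IsDAG E := by
  intro v hv
  have h1 : ∀ a b, Relation.TransGen E a b → r a < r b := by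
    intro a b hab
    induction hab with
    | single h' => exact h _ _ h'
    | tail _ h' ih => exact ih.trans (h _ _ h')
  exact lt_irrefl _ (h1 v v hv)

/-- heights in the fan, by slot -/
def dl : ℕ → ℤ
  | 0 => 0 | 1 => -1 | 2 => 2 | 3 => 1 | 4 => 2 | _ => -1

/-- heights -/
def rk : Vx α → ℤ
  | .p0 => 0
  | .p1 x _ => if x.val = 0 then -1 else 1
  | .p2 x _ _ => 1 + dl (x.val + 1)
  | .p3 s x _ _ _ => 1 + dl ((par s).val + 1) +
      if s.val = 1 then - dl (x.val + 1) else dl (x.val + 1)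

theorem G_dag (α : Type) : IsDAG (GE α) := by
  refine dag_of_rank rk ?_
  rintro p q ⟨e, rfl, rfl⟩
  cases e with
  | e1 i a => fin_cases i <;> simp [Ed.tl, Ed.hd, n1, Tt, Th, rk]
  | e2 i a b => fin_cases i <;> simp [Ed.tl, Ed.hd, n2, At, Ah, rk, dl]
  | e3 s i a b c =>
    fin_cases s <;> fin_cases i <;> simp [Ed.tl, Ed.hd, n3, At, Ah, rk, dl, par]

end Pool.Agent.LibSN3
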