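import Pool.Agent.LibSN3.Check

/-!
# The initial clauses
-/

set_option autoImplicit false

namespace Pool.Agent.LibSN3

variable {α β : Type}

/-- vertex of kind `κ` -/
def dv (κ : ℕ) (a b c : α) : Vx α :=
  if κ = 0 then .p0 else if κ ≤ 2 then .p1 (Fin.ofNat 2 (κ - 1)) a
  else if κ ≤ 7 then .p2 (Fin.ofNat 5 (κ - 3)) a b
  else .p3 (Fin.ofNat 3 ((κ - 8) / 5)) (Fin.ofNat 5 ((κ - 8) % 5)) a b c

/-- edge of kind `t` -/
def de (t : ℕ) (a b c : α) : Ed α :=
  if t < 3 then .e1 (Fin.ofNat 3 t) a else if t < 12 then .e2 (Fin.ofNat 9 (t - 3)) a b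
  else .e3 (Fin.ofNat 3 ((t - 12) / 9)) (Fin.ofNat 9 ((t - 12) % 9)) a b c

theorem dv_map (g : α → β) (κ : ℕ) (a b c : α) : (dv κ a b c).map g = dv κ (g a) (g b) (g c) := by
  unfold dv
  split_ifs <;> rfl

theorem de_map (g : α → β) (t : ℕ) (a b c : α) : (de t a b c).map g = de t (g a) (g b) (g c) := by
  unfold de
  split_ifs <;> rfl

/-- digit of a number -/
def dg (v s : ℕ) : ℕ := Nat.land (Nat.shiftRight v s) 63

theorem dg_eq (v s : ℕ) : dg v s = v / 2 ^ s % 64 := by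
  show (v >>> s) &&& 63 = _
  rw [Nat.shiftRight_eq_div_pow]
  exact Nat.and_two_pow_sub_one_eq_mod _ 6

theorem dg_lt (v s : ℕ) : dg v s < 64 := by
  rw [dg_eq]
  exact Nat.mod_lt _ (by norm_num)

/-- the vertex coded by a number -/
def vd (f : ℕ → α) (v : ℕ) : Vx α := dv (dg v 0) (f (dg v 6)) (f (dg v 12)) (f (dg v 18))

/-- label number `i` of the list `E` -/
def eg (E i : ℕ) : ℕ := dg E (Nat.mul 6 (Nat.mod i 6))

/-- image of a vertex code -/
def mp (E v : ℕ) : ℕ :=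
  cond (Nat.beq (dg v 0) 0) 0
    (cond (Nat.ble (dg v 0) 2) (Nat.add (dg v 0) (Nat.mul 64 (eg E (dg v 6))))
      (cond (Nat.ble (dg v 0) 7)
        (Nat.add (dg v 0) (Nat.add (Nat.mul 64 (eg E (dg v 6))) (Nat.mul 4096 (eg E (dg v 12)))))
        (Nat.add (dg v 0) (Nat.add (Nat.mul 64 (eg E (dg v 6)))
          (Nat.add (Nat.mul 4096 (eg E (dg v 12))) (Nat.mul 262144 (eg E (dg v 18))))))))

theorem beq_true {a b : ℕ} (h : Nat.beq a b = true) : a = b := Nat.eq_of_beq_eq_true h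

theorem beq_false {a b : ℕ} (h : Nat.beq a b = false) : a ≠ b := Nat.ne_of_beq_eq_false h

theorem ble_true {a b : ℕ} (h : Nat.ble a b = true) : a ≤ b := Nat.le_of_ble_eq_true h

theorem ble_false {a b : ℕ} (h : Nat.ble a b = false) : b < a := by
  by_contra h2
  rw [Nat.ble_eq_true_of_le (Nat.le_of_not_lt h2)] at h
  exact Bool.noConfusion h

theorem mp_spec (E v : ℕ) : vd (fun i : ℕ => i) (mp E v) = vd (eg E) v := by
  have hx : eg E (dg v 6) < 64 := dg_lt _ _
  have hy : eg E (dg v 12) < 64 := dg_lt _ _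
  have hz : eg E (dg v 18) < 64 := dg_lt _ _
  have hk : dg v 0 < 64 := dg_lt _ _
  have hR : vd (eg E) v = dv (dg v 0) (eg E (dg v 6)) (eg E (dg v 12)) (eg E (dg v 18)) := rfl
  have hM : mp E v = cond (Nat.beq (dg v 0) 0) 0
    (cond (Nat.ble (dg v 0) 2) (dg v 0 + 64 * (eg E (dg v 6)))
      (cond (Nat.ble (dg v 0) 7)
        (dg v 0 + (64 * (eg E (dg v 6)) + 4096 * (eg E (dg v 12))))
        (dg v 0 + (64 * (eg E (dg v 6)) +
          (4096 * (eg E (dg v 12)) + 262144 * (eg E (dg v 18))))))) := rfl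
  rw [hM, hR]
  generalize eg E (dg v 6) = x at *
  generalize eg E (dg v 12) = y at *
  generalize eg E (dg v 18) = z at *
  generalize dg v 0 = κ at *
  clear hM hR
  cases h1 : Nat.beq κ 0 with
  | true =>
    have h1' := beq_true h1
    show vd (fun i : ℕ => i) 0 = _
    unfold vd
    rw [dg_eq]
    unfold dv
    rw [if_pos h1', if_pos (by norm_num)]
  | false =>
    have h1' := beq_false h1
    cases h2 : Nat.ble κ 2 with
    | true =>
      have h2' := ble_true h2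
      show vd (fun i : ℕ => i) (κ + 64 * x) = _
      unfold vd
      rw [dg_eq, dg_eq, dg_eq, dg_eq]
      have e1 : (κ + 64 * x) / 2 ^ 0 % 64 = κ := by omega
      have e2 : (κ + 64 * x) / 2 ^ 6 % 64 = x := by omega
      rw [e1, e2]
      unfold dv
      rw [if_neg h1', if_neg h1', if_pos h2', if_pos h2']
    | false =>
      have h2' := ble_false h2
      cases h3 : Nat.ble κ 7 with
      | true =>
        have h3' := ble_true h3
        show vd (fun i : ℕ => i) (κ + (64 * x + 4096 * y)) = _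
        unfold vd
        rw [dg_eq, dg_eq, dg_eq, dg_eq]
        have e1 : (κ + (64 * x + 4096 * y)) / 2 ^ 0 % 64 = κ := by omega
        have e2 : (κ + (64 * x + 4096 * y)) / 2 ^ 6 % 64 = x := by omega
        have e3 : (κ + (64 * x + 4096 * y)) / 2 ^ 12 % 64 = y := by omega
        rw [e1, e2, e3]
        unfold dv
        have h2'' : ¬ κ ≤ 2 := by omega
        rw [if_neg h1', if_neg h1', if_neg h2'', if_neg h2'', if_pos h3', if_pos h3']
      | false =>
        have h3' := ble_false h3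
        show vd (fun i : ℕ => i) (κ + (64 * x + (4096 * y + 262144 * z))) = _
        unfold vd
        rw [dg_eq, dg_eq, dg_eq, dg_eq]
        have e1 : (κ + (64 * x + (4096 * y + 262144 * z))) / 2 ^ 0 % 64 = κ := by omega
        have e2 : (κ + (64 * x + (4096 * y + 262144 * z))) / 2 ^ 6 % 64 = x := by omega
        have e3 : (κ + (64 * x + (4096 * y + 262144 * z))) / 2 ^ 12 % 64 = y := by omega
        have e4 : (κ + (64 * x + (4096 * y + 262144 * z))) / 2 ^ 18 % 64 = z := by omega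
        rw [e1, e2, e3, e4]

/-- the labels in `E` as a function on `Fin 6` -/
def ef (E : ℕ) (i : Fin 6) : ℕ := eg E i.val

theorem mp_map (E v : ℕ) :
    vd (fun i : ℕ => i) (mp E v) = (vd (Fin.ofNat 6) v).map (ef E) := by
  rw [mp_spec]
  unfold vd
  rw [dv_map]
  have h : ∀ i : ℕ, ef E (Fin.ofNat 6 i) = eg E i := by
    intro i
    show dg E (6 * ((i % 6) % 6)) = dg E (6 * (i % 6))
    rw [Nat.mod_mod]
  rw [h, h, h]

/-- `E` is strictly increasing -/
def chain (E : ℕ) : Bool :=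
  (Nat.ble (Nat.succ (eg E 0)) (eg E 1)) && ((Nat.ble (Nat.succ (eg E 1)) (eg E 2)) &&
    ((Nat.ble (Nat.succ (eg E 2)) (eg E 3)) && ((Nat.ble (Nat.succ (eg E 3)) (eg E 4)) &&
      ((Nat.ble (Nat.succ (eg E 4)) (eg E 5)) && (Nat.ble (eg E 5) 44)))))

theorem chain_sound {E : ℕ} (h : chain E = true) : StrictMono (ef E) ∧ ∀ i, ef E i < 45 := by
  unfold chain at h
  rw [Bool.and_eq_true, Bool.and_eq_true, Bool.and_eq_true, Bool.and_eq_true, Bool.and_eq_true] at h
  obtain ⟨h0, h1, h2, h3, h4, h5⟩ := h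
  have a0 : eg E 0 < eg E 1 := ble_true h0
  have a1 : eg E 1 < eg E 2 := ble_true h1
  have a2 : eg E 2 < eg E 3 := ble_true h2
  have a3 : eg E 3 < eg E 4 := ble_true h3
  have a4 : eg E 4 < eg E 5 := ble_true h4
  have a5 : eg E 5 ≤ 44 := ble_true h5
  refine ⟨?_, ?_⟩
  · rw [Fin.strictMono_iff_lt_succ]
    intro i
    fin_cases i
    · exact a0
    · exact a1
    · exact a2
    · exact a3
    · exact a4
  · intro i
    have : ef E i ≤ eg E 5 := by
      fin_cases i
      · exact (a0.trans (a1.trans (a2.trans (a3.trans a4)))).le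
      · exact (a1.trans (a2.trans (a3.trans a4))).le
      · exact (a2.trans (a3.trans a4)).le
      · exact (a3.trans a4).le
      · exact a4.le
      · exact le_rfl
    omega

/-- an order and a colouring of the vertices and edges with labels in `ℕ`, uniform on the labels
below `45` -/
structure Mod where
  L0 : Vx (Fin 6) → Vx (Fin 6) → Prop
  C0 : Ed (Fin 6) → ℕ → Prop
  L : Vx ℕ → Vx ℕ → Prop
  C : Ed ℕ → ℕ → Prop
  hL : ∀ (P Q : Vx (Fin 6)) (e : Fin 6 → ℕ), StrictMono e → (∀ i, e i < 45) →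
    (L (P.map e) (Q.map e) ↔ L0 P Q)
  hC : ∀ (E : Ed (Fin 6)) (k : ℕ) (e : Fin 6 → ℕ), StrictMono e → (∀ i, e i < 45) →
    (C (E.map e) k ↔ C0 E k)
  tri : ∀ P Q : Vx (Fin 6), P ≠ Q → L0 P Q ∨ L0 Q P
  cyc : ∀ x y z, L x y → L y z → L z x → False
  edge : ∀ e : Ed ℕ, L e.tl e.hd
  some4 : ∀ E, C0 E 0 ∨ C0 E 1 ∨ C0 E 2 ∨ C0 E 3
  cross : ∀ (e f : Ed ℕ) (k : ℕ), C e k → C f k → L e.tl f.tl → L f.tl e.hd → L e.hd f.hd → False

/-- first vertex of an order variable -/
def cP (c : ℕ) : ℕ := Nat.land (Nat.shiftRight c 6) 16777215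

/-- second vertex of an order variable -/
def cQ (c : ℕ) : ℕ := Nat.shiftRight c 30

/-- canonical vertex -/
def c6 (v : ℕ) : Vx (Fin 6) := vd (Fin.ofNat 6) v

/-- canonical edge -/
def k6 (t : ℕ) : Ed (Fin 6) := de t 0 1 2

/-- the meaning of a variable -/
def vv (m : Mod) (c : ℕ) : Prop :=
  if Nat.land c 63 = 0 then m.L0 (c6 (cP c)) (c6 (cQ c))
  else if Nat.land c 63 = 1 then m.C0 (k6 (dg c 6)) (dg c 12)
  else ∃ k, m.C0 (k6 (dg c 6)) k ∧ m.C0 (k6 (dg c 12)) k

/-- the kinds of the tails -/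
def tc (t : ℕ) : ℕ :=
  Nat.add 528384 (dg 8750645713343552993321787706696534914129991673008683532418823546998785 (Nat.mul 6 t))

/-- the kinds of the heads -/
def hc (t : ℕ) : ℕ :=
  Nat.add 528384 (dg 8326130169584607551333436925062299126073589049714605891898380063875200 (Nat.mul 6 t))


theorem tc_spec (t : ℕ) (ht : t ≤ 38) (f : ℕ → α) :
    (de t (f 0) (f 1) (f 2)).tl = vd f (tc t) := by
  interval_cases t <;> rfl

theorem hc_spec (t : ℕ) (ht : t ≤ 38) (f : ℕ → α) :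
    (de t (f 0) (f 1) (f 2)).hd = vd f (hc t) := by
  interval_cases t <;> rfl

/-- the sample edge of kind `t` with the labels of `E` -/
def sE (t E : ℕ) : Ed ℕ := (k6 t).map (ef E)

theorem sE_tl (t E : ℕ) (ht : t ≤ 38) : (sE t E).tl = vd (fun i : ℕ => i) (mp E (tc t)) := by
  unfold sE
  rw [tl_map, mp_map, ← tc_spec t ht]
  rfl

theorem sE_hd (t E : ℕ) (ht : t ≤ 38) : (sE t E).hd = vd (fun i : ℕ => i) (mp E (hc t)) := by
  unfold sE
  rw [hd_map, mp_map, ← hc_spec t ht]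
  rfl

/-- source vertex of a fact -/
def fX (tab : ℕ → ℕ) (l E : ℕ) : ℕ :=
  cond (Nat.ble 2048 l) (mp E (tc (Nat.sub l 2048)))
    (cond (Nat.beq (Nat.land l 1) 0) (mp E (cP (tab (Nat.div l 2)))) (mp E (cQ (tab (Nat.div l 2)))))

/-- target vertex of a fact -/
def fY (tab : ℕ → ℕ) (l E : ℕ) : ℕ :=
  cond (Nat.ble 2048 l) (mp E (hc (Nat.sub l 2048)))
    (cond (Nat.beq (Nat.land l 1) 0) (mp E (cQ (tab (Nat.div l 2)))) (mp E (cP (tab (Nat.div l 2)))))

/-- membership -/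
def mem (l : ℕ) : List ℕ → Bool
  | [] => false
  | a :: L => cond (Nat.beq l a) true (mem l L)

theorem mem_sound {l : ℕ} {L : List ℕ} (h : mem l L = true) : l ∈ L := by
  induction L with
  | nil => exact Bool.noConfusion h
  | cons a L ih =>
    have hE : mem l (a :: L) = cond (Nat.beq l a) true (mem l L) := rfl
    rw [hE] at h
    cases h1 : Nat.beq l a with
    | true => rw [beq_true h1]; exact List.mem_cons_self
    | false => rw [h1] at h; exact List.mem_cons_of_mem _ (ih h)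

/-- a fact is admissible -/
def fOK (tab : ℕ → ℕ) (c l E : ℕ) : Bool :=
  chain E && cond (Nat.ble 2048 l) (Nat.ble (Nat.sub l 2048) 38)
    (mem l (dec 40 c) && Nat.beq (Nat.land (tab (Nat.div l 2)) 63) 0)

/-- an order variable is about two different vertices -/
def okc (c : ℕ) : Bool := cond (Nat.beq (Nat.land c 63) 0) (!(decide (c6 (cP c) = c6 (cQ c)))) true

theorem fact_sound (m : Mod) (tab : ℕ → ℕ) (htab : ∀ v, okc (tab v) = true) (c l E : ℕ)
    (hc : ∀ x ∈ dec 40 c, ¬ Holds (fun v => vv m (tab v)) x) (h : fOK tab c l E = true) :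
    m.L (vd (fun i : ℕ => i) (fX tab l E)) (vd (fun i : ℕ => i) (fY tab l E)) := by
  unfold fOK at h
  rw [Bool.and_eq_true] at h
  obtain ⟨h1, h2⟩ := h
  obtain ⟨hE1, hE2⟩ := chain_sound h1
  unfold fX fY
  generalize Nat.sub l 2048 = t at h2 ⊢
  cases h3 : Nat.ble 2048 l with
  | true =>
    rw [h3] at h2
    have ht : t ≤ 38 := ble_true h2
    have := m.edge (sE t E)
    rw [sE_tl _ _ ht, sE_hd _ _ ht] at this
    exact this
  | false =>
    rw [h3] at h2
    have h2' : (mem l (dec 40 c) && Nat.beq (Nat.land (tab (Nat.div l 2)) 63) 0) = true := h2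
    rw [Bool.and_eq_true] at h2'
    obtain ⟨h4, h5⟩ := h2'
    have h4' := hc l (mem_sound h4)
    have h5' := beq_true h5
    have hne := htab (l / 2)
    have h5'' : Nat.land (tab (l / 2)) 63 = 0 := h5'
    unfold okc at hne
    rw [h5''] at hne
    have hne' : (!(decide (c6 (cP (tab (l / 2))) = c6 (cQ (tab (l / 2)))))) = true := hne
    have hne2 : c6 (cP (tab (l / 2))) ≠ c6 (cQ (tab (l / 2))) := by
      intro h6
      rw [decide_eq_true h6] at hne'
      exact Bool.noConfusion hne'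
    have hv : vv m (tab (l / 2)) = m.L0 (c6 (cP (tab (l / 2)))) (c6 (cQ (tab (l / 2)))) := by
      unfold vv
      rw [if_pos h5'']
    have hmod : Nat.land l 1 = l % 2 := Nat.and_one_is_mod l
    cases h6 : Nat.beq (Nat.land l 1) 0 with
    | true =>
      have h7 : l % 2 = 0 := by rw [← hmod]; exact beq_true h6
      show m.L (vd (fun i : ℕ => i) (mp E (cP (tab (l / 2)))))
        (vd (fun i : ℕ => i) (mp E (cQ (tab (l / 2)))))
      rw [mp_map, mp_map]
      refine (m.hL _ _ _ hE1 hE2).2 ?_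
      by_contra h8
      refine h4' (Or.inr ⟨h7, ?_⟩)
      show ¬ vv m (tab (l / 2))
      rw [hv]
      exact h8
    | false =>
      have h7 : l % 2 = 1 := by
        have := beq_false h6
        rw [hmod] at this
        omega
      show m.L (vd (fun i : ℕ => i) (mp E (cQ (tab (l / 2)))))
        (vd (fun i : ℕ => i) (mp E (cP (tab (l / 2)))))
      rw [mp_map, mp_map]
      refine (m.hL _ _ _ hE1 hE2).2 ?_
      rcases m.tri _ _ hne2 with h8 | h8
      · refine absurd (Or.inl ⟨h7, ?_⟩) h4'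
        show vv m (tab (l / 2))
        rw [hv]
        exact h8
      · exact h8

/-- field of 12 bits -/
def fl (w s : ℕ) : ℕ := Nat.land (Nat.shiftRight w s) 4095

/-- field of 36 bits -/
def fe (w s : ℕ) : ℕ := Nat.land (Nat.shiftRight w s) 68719476735

/-- three admissible facts -/
def f3 (tab : ℕ → ℕ) (c w : ℕ) : Bool :=
  fOK tab c (fl w 6) (fe w 18) && (fOK tab c (fl w 54) (fe w 66) && fOK tab c (fl w 102) (fe w 114))

/-- cyclic triple -/
def trOK (tab : ℕ → ℕ) (c w : ℕ) : Bool :=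
  f3 tab c w && (Nat.beq (fY tab (fl w 6) (fe w 18)) (fX tab (fl w 54) (fe w 66)) &&
    (Nat.beq (fY tab (fl w 54) (fe w 66)) (fX tab (fl w 102) (fe w 114)) &&
      Nat.beq (fY tab (fl w 102) (fe w 114)) (fX tab (fl w 6) (fe w 18))))

/-- same colour -/
def scOK (tab : ℕ → ℕ) (c t u s : ℕ) : Bool :=
  Nat.beq t u || (mem s (dec 40 c) && (Nat.beq (Nat.land s 1) 0 &&
    (Nat.beq (tab (Nat.div s 2)) (Nat.add 2 (Nat.add (Nat.mul 64 t) (Nat.mul 4096 u))) ||
      Nat.beq (tab (Nat.div s 2)) (Nat.add 2 (Nat.add (Nat.mul 64 u) (Nat.mul 4096 t))))))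

/-- crossing -/
def crOK (tab : ℕ → ℕ) (c w : ℕ) : Bool :=
  f3 tab c w && ((chain (fe w 162) && (chain (fe w 210) && (Nat.ble (fl w 150) 38 &&
    Nat.ble (fl w 198) 38))) &&
    ((Nat.beq (fX tab (fl w 6) (fe w 18)) (mp (fe w 162) (tc (fl w 150))) &&
      (Nat.beq (fY tab (fl w 6) (fe w 18)) (mp (fe w 210) (tc (fl w 198))) &&
        (Nat.beq (fX tab (fl w 54) (fe w 66)) (mp (fe w 210) (tc (fl w 198))) &&
          (Nat.beq (fY tab (fl w 54) (fe w 66)) (mp (fe w 162) (hc (fl w 150))) &&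
            (Nat.beq (fX tab (fl w 102) (fe w 114)) (mp (fe w 162) (hc (fl w 150))) &&
              Nat.beq (fY tab (fl w 102) (fe w 114)) (mp (fe w 210) (hc (fl w 198)))))))) &&
      scOK tab c (fl w 150) (fl w 198) (fl w 246)))

theorem f3_sound (m : Mod) (tab : ℕ → ℕ) (htab : ∀ v, okc (tab v) = true) (c w : ℕ)
    (hc : ∀ x ∈ dec 40 c, ¬ Holds (fun v => vv m (tab v)) x) (h : f3 tab c w = true) :
    m.L (vd (fun i : ℕ => i) (fX tab (fl w 6) (fe w 18)))
      (vd (fun i : ℕ => i) (fY tab (fl w 6) (fe w 18))) ∧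
    m.L (vd (fun i : ℕ => i) (fX tab (fl w 54) (fe w 66)))
      (vd (fun i : ℕ => i) (fY tab (fl w 54) (fe w 66))) ∧
    m.L (vd (fun i : ℕ => i) (fX tab (fl w 102) (fe w 114)))
      (vd (fun i : ℕ => i) (fY tab (fl w 102) (fe w 114))) := by
  unfold f3 at h
  rw [Bool.and_eq_true, Bool.and_eq_true] at h
  exact ⟨fact_sound m tab htab c _ _ hc h.1, fact_sound m tab htab c _ _ hc h.2.1,
    fact_sound m tab htab c _ _ hc h.2.2⟩

theorem trOK_sound (m : Mod) (tab : ℕ → ℕ) (htab : ∀ v, okc (tab v) = true) (c w : ℕ)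
    (h : trOK tab c w = true) : CTrue (fun v => vv m (tab v)) c := by
  by_contra hn
  have hc : ∀ x ∈ dec 40 c, ¬ Holds (fun v => vv m (tab v)) x := fun x hx hx' => hn ⟨x, hx, hx'⟩
  unfold trOK at h
  rw [Bool.and_eq_true, Bool.and_eq_true, Bool.and_eq_true] at h
  obtain ⟨h0, h1, h2, h3⟩ := h
  obtain ⟨a1, a2, a3⟩ := f3_sound m tab htab c w hc h0
  rw [beq_true h1] at a1
  rw [beq_true h2] at a2
  rw [beq_true h3] at a3
  exact m.cyc _ _ _ a1 a2 a3

theorem sam_tag (t u : ℕ) (ht : t ≤ 38) (hu : u ≤ 38) :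
    Nat.land (2 + (64 * t + 4096 * u)) 63 = 2 ∧ dg (2 + (64 * t + 4096 * u)) 6 = t ∧
      dg (2 + (64 * t + 4096 * u)) 12 = u := by
  refine ⟨?_, ?_, ?_⟩
  · have h1 : Nat.land (2 + (64 * t + 4096 * u)) 63 = (2 + (64 * t + 4096 * u)) % 64 :=
      Nat.and_two_pow_sub_one_eq_mod _ 6
    rw [h1]
    omega
  · rw [dg_eq]
    omega
  · rw [dg_eq]
    omega

theorem vv_sam (m : Mod) (t u : ℕ) (ht : t ≤ 38) (hu : u ≤ 38) :
    vv m (2 + (64 * t + 4096 * u)) ↔ ∃ k, m.C0 (k6 t) k ∧ m.C0 (k6 u) k := by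
  obtain ⟨h1, h2, h3⟩ := sam_tag t u ht hu
  unfold vv
  rw [h1, h2, h3]
  exact Iff.rfl

theorem crOK_sound (m : Mod) (tab : ℕ → ℕ) (htab : ∀ v, okc (tab v) = true) (c w : ℕ)
    (h : crOK tab c w = true) : CTrue (fun v => vv m (tab v)) c := by
  by_contra hn
  have hc' : ∀ x ∈ dec 40 c, ¬ Holds (fun v => vv m (tab v)) x := fun x hx hx' => hn ⟨x, hx, hx'⟩
  unfold crOK at h
  rw [Bool.and_eq_true, Bool.and_eq_true, Bool.and_eq_true, Bool.and_eq_true, Bool.and_eq_true,
    Bool.and_eq_true, Bool.and_eq_true, Bool.and_eq_true, Bool.and_eq_true, Bool.and_eq_true,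
    Bool.and_eq_true] at h
  obtain ⟨h0, ⟨c1, c2, l1, l2⟩, ⟨x1, y1, x2, y2, x3, y3⟩, hs⟩ := h
  obtain ⟨a1, a2, a3⟩ := f3_sound m tab htab c w hc' h0
  have t1 : fl w 150 ≤ 38 := ble_true l1
  have t2 : fl w 198 ≤ 38 := ble_true l2
  rw [beq_true x1, beq_true y1, ← sE_tl _ _ t1, ← sE_tl _ _ t2] at a1
  rw [beq_true x2, beq_true y2, ← sE_tl _ _ t2, ← sE_hd _ _ t1] at a2
  rw [beq_true x3, beq_true y3, ← sE_hd _ _ t1, ← sE_hd _ _ t2] at a3
  obtain ⟨e1, e2⟩ := chain_sound c1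
  obtain ⟨f1, f2⟩ := chain_sound c2
  have hk : ∃ k, m.C0 (k6 (fl w 150)) k ∧ m.C0 (k6 (fl w 198)) k := by
    unfold scOK at hs
    rw [Bool.or_eq_true] at hs
    rcases hs with hs | hs
    · rw [beq_true hs]
      rcases m.some4 (k6 (fl w 198)) with h | h | h | h
      · exact ⟨0, h, h⟩
      · exact ⟨1, h, h⟩
      · exact ⟨2, h, h⟩
      · exact ⟨3, h, h⟩
    · rw [Bool.and_eq_true, Bool.and_eq_true, Bool.or_eq_true] at hs
      obtain ⟨g1, g2, g3⟩ := hs
      have hmod : Nat.land (fl w 246) 1 = fl w 246 % 2 := Nat.and_one_is_mod _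
      have g2' : fl w 246 % 2 = 0 := by rw [← hmod]; exact beq_true g2
      have g4 := hc' _ (mem_sound g1)
      have g5 : vv m (tab (fl w 246 / 2)) := by
        by_contra g6
        exact g4 (Or.inr ⟨g2', g6⟩)
      rcases g3 with g3 | g3
      · have g7 : tab (fl w 246 / 2) = 2 + (64 * fl w 150 + 4096 * fl w 198) := beq_true g3
        rw [g7] at g5
        exact (vv_sam m _ _ t1 t2).1 g5
      · have g7 : tab (fl w 246 / 2) = 2 + (64 * fl w 198 + 4096 * fl w 150) := beq_true g3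
        rw [g7] at g5
        obtain ⟨k, k1, k2⟩ := (vv_sam m _ _ t2 t1).1 g5
        exact ⟨k, k2, k1⟩
  obtain ⟨k, k1, k2⟩ := hk
  exact m.cross _ _ k ((m.hC _ k _ e1 e2).2 k1) ((m.hC _ k _ f1 f2).2 k2) a1 a2 a3

/-- the code of the variable: edge kind `t` has colour `k` -/
def cl (t k : ℕ) : ℕ := Nat.add 1 (Nat.add (Nat.mul 64 t) (Nat.mul 4096 k))

theorem vv_cl (m : Mod) (t k : ℕ) (ht : t ≤ 38) (hk : k ≤ 3) : vv m (cl t k) ↔ m.C0 (k6 t) k := by
  have h1 : Nat.land (cl t k) 63 = 1 := by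
    have h1 : Nat.land (1 + (64 * t + 4096 * k)) 63 = (1 + (64 * t + 4096 * k)) % 64 :=
      Nat.and_two_pow_sub_one_eq_mod _ 6
    refine h1.trans ?_
    omega
  have h2 : dg (cl t k) 6 = t := by
    rw [dg_eq]
    show (1 + (64 * t + 4096 * k)) / 2 ^ 6 % 64 = t
    omega
  have h3 : dg (cl t k) 12 = k := by
    rw [dg_eq]
    show (1 + (64 * t + 4096 * k)) / 2 ^ 12 % 64 = k
    omega
  unfold vv
  rw [h1, h2, h3]
  exact Iff.rfl

/-- a positive literal in the clause about edge kind `t` and colour `k` -/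
def plOK (tab : ℕ → ℕ) (c l x : ℕ) : Bool :=
  mem l (dec 40 c) && (Nat.beq (Nat.land l 1) 1 && Nat.beq (tab (Nat.div l 2)) x)

/-- a negative literal in the clause -/
def nlOK (tab : ℕ → ℕ) (c l x : ℕ) : Bool :=
  mem l (dec 40 c) && (Nat.beq (Nat.land l 1) 0 && Nat.beq (tab (Nat.div l 2)) x)

theorem plOK_sound (m : Mod) (tab : ℕ → ℕ) (c l x : ℕ)
    (hc : ∀ x ∈ dec 40 c, ¬ Holds (fun v => vv m (tab v)) x) (h : plOK tab c l x = true) :
    ¬ vv m x := by
  unfold plOK at h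
  rw [Bool.and_eq_true, Bool.and_eq_true] at h
  obtain ⟨h1, h2, h3⟩ := h
  have hmod : Nat.land l 1 = l % 2 := Nat.and_one_is_mod l
  have h2' : l % 2 = 1 := by rw [← hmod]; exact beq_true h2
  have h3' : tab (l / 2) = x := beq_true h3
  intro h4
  refine hc l (mem_sound h1) (Or.inl ⟨h2', ?_⟩)
  show vv m (tab (l / 2))
  rw [h3']
  exact h4

theorem nlOK_sound (m : Mod) (tab : ℕ → ℕ) (c l x : ℕ)
    (hc : ∀ x ∈ dec 40 c, ¬ Holds (fun v => vv m (tab v)) x) (h : nlOK tab c l x = true) :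
    vv m x := by
  unfold nlOK at h
  rw [Bool.and_eq_true, Bool.and_eq_true] at h
  obtain ⟨h1, h2, h3⟩ := h
  have hmod : Nat.land l 1 = l % 2 := Nat.and_one_is_mod l
  have h2' : l % 2 = 0 := by rw [← hmod]; exact beq_true h2
  have h3' : tab (l / 2) = x := beq_true h3
  by_contra h4
  refine hc l (mem_sound h1) (Or.inr ⟨h2', ?_⟩)
  show ¬ vv m (tab (l / 2))
  rw [h3']
  exact h4

/-- some colour -/
def coOK (tab : ℕ → ℕ) (c w : ℕ) : Bool :=
  Nat.ble (fl w 6) 38 && (plOK tab c (fl w 18) (cl (fl w 6) 0) &&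
    (plOK tab c (fl w 30) (cl (fl w 6) 1) && (plOK tab c (fl w 42) (cl (fl w 6) 2) &&
      plOK tab c (fl w 54) (cl (fl w 6) 3))))

/-- the same colour -/
def smOK (tab : ℕ → ℕ) (c w : ℕ) : Bool :=
  (Nat.ble (fl w 6) 38 && (Nat.ble (fl w 18) 38 && Nat.ble (fl w 30) 3)) &&
    (nlOK tab c (fl w 42) (cl (fl w 6) (fl w 30)) &&
      (nlOK tab c (fl w 54) (cl (fl w 18) (fl w 30)) &&
        plOK tab c (fl w 66) (Nat.add 2 (Nat.add (Nat.mul 64 (fl w 6)) (Nat.mul 4096 (fl w 18))))))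

theorem coOK_sound (m : Mod) (tab : ℕ → ℕ) (c w : ℕ)
    (h : coOK tab c w = true) : CTrue (fun v => vv m (tab v)) c := by
  by_contra hn
  have hc : ∀ x ∈ dec 40 c, ¬ Holds (fun v => vv m (tab v)) x := fun x hx hx' => hn ⟨x, hx, hx'⟩
  unfold coOK at h
  rw [Bool.and_eq_true, Bool.and_eq_true, Bool.and_eq_true, Bool.and_eq_true] at h
  obtain ⟨h0, h1, h2, h3, h4⟩ := h
  have t0 := ble_true h0
  rcases m.some4 (k6 (fl w 6)) with h | h | h | h
  · exact plOK_sound m tab c _ _ hc h1 ((vv_cl m _ 0 t0 (by norm_num)).2 h)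
  · exact plOK_sound m tab c _ _ hc h2 ((vv_cl m _ 1 t0 (by norm_num)).2 h)
  · exact plOK_sound m tab c _ _ hc h3 ((vv_cl m _ 2 t0 (by norm_num)).2 h)
  · exact plOK_sound m tab c _ _ hc h4 ((vv_cl m _ 3 t0 (by norm_num)).2 h)

theorem smOK_sound (m : Mod) (tab : ℕ → ℕ) (c w : ℕ)
    (h : smOK tab c w = true) : CTrue (fun v => vv m (tab v)) c := by
  by_contra hn
  have hc : ∀ x ∈ dec 40 c, ¬ Holds (fun v => vv m (tab v)) x := fun x hx hx' => hn ⟨x, hx, hx'⟩
  unfold smOK at h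
  rw [Bool.and_eq_true, Bool.and_eq_true, Bool.and_eq_true, Bool.and_eq_true,
    Bool.and_eq_true] at h
  obtain ⟨⟨h0, h1, h2⟩, h3, h4, h5⟩ := h
  have t0 := ble_true h0
  have t1 := ble_true h1
  have t2 := ble_true h2
  have b1 := (vv_cl m _ _ t0 t2).1 (nlOK_sound m tab c _ _ hc h3)
  have b2 := (vv_cl m _ _ t1 t2).1 (nlOK_sound m tab c _ _ hc h4)
  have b3 := plOK_sound m tab c _ _ hc h5
  exact b3 ((vv_sam m _ _ t0 t1).2 ⟨_, b1, b2⟩)

/-- check of an initial clause -/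
def iOK (tab : ℕ → ℕ) (c w : ℕ) : Bool :=
  cond (Nat.beq (dg w 0) 0) (trOK tab c w) (cond (Nat.beq (dg w 0) 1) (crOK tab c w)
    (cond (Nat.beq (dg w 0) 2) (coOK tab c w) (smOK tab c w)))

theorem iOK_sound (m : Mod) (tab : ℕ → ℕ) (htab : ∀ v, okc (tab v) = true) (c w : ℕ)
    (h : iOK tab c w = true) : CTrue (fun v => vv m (tab v)) c := by
  unfold iOK at h
  cases h1 : Nat.beq (dg w 0) 0 with
  | true => rw [h1] at h; exact trOK_sound m tab htab c w h
  | false =>
    rw [h1] at h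
    cases h2 : Nat.beq (dg w 0) 1 with
    | true => rw [h2] at h; exact crOK_sound m tab htab c w h
    | false =>
      rw [h2] at h
      cases h3 : Nat.beq (dg w 0) 2 with
      | true => rw [h3] at h; exact coOK_sound m tab c w h
      | false => rw [h3] at h; exact smOK_sound m tab c w h

/-- all initial clauses `i, …, i + k - 1` are checked -/
noncomputable def initOK (t : Tr) (tab : ℕ → ℕ) : ℕ → ℕ → Bool
  | 0, _ => true
  | k + 1, i => cond (iOK tab (t.get1 i) (t.get2 i)) (initOK t tab k (i + 1)) false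

theorem initOK_sound (t : Tr) (tab : ℕ → ℕ) (k i : ℕ) (h : initOK t tab k i = true) (j : ℕ)
    (h1 : i ≤ j) (h2 : j < i + k) : iOK tab (t.get1 j) (t.get2 j) = true := by
  induction k generalizing i with
  | zero => omega
  | succ k ih =>
    have hE : initOK t tab (k + 1) i =
      cond (iOK tab (t.get1 i) (t.get2 i)) (initOK t tab k (i + 1)) false := rfl
    rw [hE] at h
    cases h3 : iOK tab (t.get1 i) (t.get2 i) with
    | false => rw [h3] at h; exact Bool.noConfusion h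
    | true =>
      rw [h3] at h
      by_cases h4 : j = i
      · rw [h4]; exact h3
      · exact ih (i + 1) h (by omega) (by omega)

/-- all entries of the table of variables are admissible -/
noncomputable def tabOK (t : Tr) : Bool :=
  Tr.rec (fun c _ => okc c) (fun _ _ a b => a && b) t

theorem tabOK_sound (t : Tr) (h : tabOK t = true) (v : ℕ) : okc (t.get1 v) = true := by
  induction t generalizing v with
  | lf c w => exact h
  | nd l r ihl ihr =>
    have hE : tabOK (.nd l r) = (tabOK l && tabOK r) := rfl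
    rw [hE, Bool.and_eq_true] at h
    have hG : (Tr.nd l r).get1 v = cond (Nat.beq (Nat.land v 1) 0)
      (l.get1 (Nat.shiftRight v 1)) (r.get1 (Nat.shiftRight v 1)) := rfl
    rw [hG]
    cases Nat.beq (Nat.land v 1) 0 with
    | true => exact ihl h.1 _
    | false => exact ihr h.2 _

end Pool.Agent.LibSN3
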