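import Pool.Agent.LibSN3.Graph

/-!
# `G(Fin N)` is outerplanar
-/

set_option autoImplicit false

namespace Pool.Agent.LibSN3

/-- lexicographic order on triples -/
def lx (P Q : ℕ × ℕ × ℕ) : Prop :=
  P.1 < Q.1 ∨ (P.1 = Q.1 ∧ (P.2.1 < Q.2.1 ∨ (P.2.1 = Q.2.1 ∧ P.2.2 < Q.2.2)))

/-- place of the slot `k` of the copy number `b` (five places per copy) -/
def sp (b k : ℕ) : ℕ := if k = 0 then 0 else 5 * b + k

/-- place of the vertex number `k` of the triangle number `a` -/
def tp (a k : ℕ) : ℕ := if k = 0 then 0 else 2 * a + k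

variable {N : ℕ}

def pos : Vx (Fin N) → ℕ × ℕ × ℕ
  | .p0 => (0, 0, 0)
  | .p1 x a => (2 * a.val + x.val + 1, 0, 0)
  | .p2 x a b => (2 * a.val + 2, 5 * b.val + x.val + 1, 0)
  | .p3 s x a b c => (2 * a.val + 2, 5 * b.val + 2 * s.val + 1, 5 * c.val + x.val + 1)

theorem pos_inj (p q : Vx (Fin N)) (h : pos p = pos q) : p = q := by
  cases p with
  | p0 =>
    cases q with
    | p0 => rfl
    | p1 x a => simp only [pos, Prod.mk.injEq] at h; omega
    | p2 x a b => simp only [pos, Prod.mk.injEq] at h; omega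
    | p3 s x a b c => simp only [pos, Prod.mk.injEq] at h; omega
  | p1 x a =>
    cases q with
    | p0 => simp only [pos, Prod.mk.injEq] at h; omega
    | p1 x' a' =>
      simp only [pos, Prod.mk.injEq] at h
      have hx := x.2
      have hx' := x'.2
      have e1 : x = x' := Fin.ext (by omega)
      have e2 : a = a' := Fin.ext (by omega)
      rw [e1, e2]
    | p2 x' a' b' => simp only [pos, Prod.mk.injEq] at h; omega
    | p3 s' x' a' b' c' => simp only [pos, Prod.mk.injEq] at h; omega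
  | p2 x a b =>
    cases q with
    | p0 => simp only [pos, Prod.mk.injEq] at h; omega
    | p1 x' a' => simp only [pos, Prod.mk.injEq] at h; omega
    | p2 x' a' b' =>
      simp only [pos, Prod.mk.injEq] at h
      have hx := x.2
      have hx' := x'.2
      have e1 : x = x' := Fin.ext (by omega)
      have e2 : a = a' := Fin.ext (by omega)
      have e3 : b = b' := Fin.ext (by omega)
      rw [e1, e2, e3]
    | p3 s' x' a' b' c' => simp only [pos, Prod.mk.injEq] at h; omega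
  | p3 s x a b c =>
    cases q with
    | p0 => simp only [pos, Prod.mk.injEq] at h; omega
    | p1 x' a' => simp only [pos, Prod.mk.injEq] at h; omega
    | p2 x' a' b' => simp only [pos, Prod.mk.injEq] at h; omega
    | p3 s' x' a' b' c' =>
      simp only [pos, Prod.mk.injEq] at h
      have hx := x.2
      have hx' := x'.2
      have hs := s.2
      have hs' := s'.2
      have e0 : s = s' := Fin.ext (by omega)
      have e1 : x = x' := Fin.ext (by omega)
      have e2 : a = a' := Fin.ext (by omega)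
      have e3 : b = b' := Fin.ext (by omega)
      have e4 : c = c' := Fin.ext (by omega)
      rw [e0, e1, e2, e3, e4]

theorem lx_irrefl (P : ℕ × ℕ × ℕ) : ¬ lx P P := by
  unfold lx; omega

theorem lx_trans {P Q R : ℕ × ℕ × ℕ} (h1 : lx P Q) (h2 : lx Q R) : lx P R := by
  unfold lx at *; omega

theorem lx_tri (P Q : ℕ × ℕ × ℕ) : lx P Q ∨ P = Q ∨ lx Q P := by
  obtain ⟨p1, p2, p3⟩ := P
  obtain ⟨q1, q2, q3⟩ := Q
  simp only [lx, Prod.mk.injEq]
  omega

/-- the pairs of adjacent slots of the fan -/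
def adj : List (ℕ × ℕ) :=
  [(1, 0), (5, 0), (0, 3), (1, 3), (5, 3), (5, 4), (3, 4), (1, 2), (3, 2),
   (0, 1), (0, 5), (3, 0), (3, 1), (3, 5), (4, 5), (4, 3), (2, 1), (2, 3)]

theorem adj_facts : ∀ p ∈ adj, ∀ q ∈ adj, p.1 < 6 ∧ p.2 < 6 ∧ ¬ (p.1 < q.1 ∧ q.1 < p.2 ∧ p.2 < q.2) := by
  decide

theorem A_adj (i : Fin 9) : (At i.val, Ah i.val) ∈ adj ∧ (Ah i.val, At i.val) ∈ adj := by
  fin_cases i <;> decide

/-- no crossing in the fans at one vertex -/
theorem clus {p q : ℕ × ℕ} (hp : p ∈ adj) (hq : q ∈ adj) (b b' : ℕ) :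
    ¬ (sp b p.1 < sp b' q.1 ∧ sp b' q.1 < sp b p.2 ∧ sp b p.2 < sp b' q.2) := by
  obtain ⟨h1, h2, h3⟩ := adj_facts p hp q hq
  obtain ⟨h4, h5, -⟩ := adj_facts q hq p hp
  unfold sp
  rcases lt_trichotomy b b' with hb | hb | hb
  · split_ifs <;> omega
  · subst hb
    split_ifs <;> omega
  · split_ifs <;> omega

/-- position of the two ends of an edge -/
def Desc (P Q : ℕ × ℕ × ℕ) : Prop :=
  (∃ a i j : ℕ, i < 3 ∧ j < 3 ∧ P = (tp a i, 0, 0) ∧ Q = (tp a j, 0, 0)) ∨
  (∃ t b : ℕ, ∃ p ∈ adj, P = (t, sp b p.1, 0) ∧ Q = (t, sp b p.2, 0)) ∨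
  (∃ t u c : ℕ, ∃ p ∈ adj, P = (t, u, sp c p.1) ∧ Q = (t, u, sp c p.2))

theorem Desc.symm {P Q : ℕ × ℕ × ℕ} (h : Desc P Q) : Desc Q P := by
  have hs : ∀ p ∈ adj, (p.2, p.1) ∈ adj := by decide
  rcases h with ⟨a, i, j, h1, h2, h3, h4⟩ | ⟨t, b, p, h1, h3, h4⟩ | ⟨t, u, b, p, h1, h3, h4⟩
  · exact Or.inl ⟨a, j, i, h2, h1, h4, h3⟩
  · exact Or.inr (Or.inl ⟨t, b, _, hs p h1, h4, h3⟩)
  · exact Or.inr (Or.inr ⟨t, u, b, _, hs p h1, h4, h3⟩)

theorem pos_n1 (k : ℕ) (hk : k < 3) (a : Fin N) : pos (n1 k a) = (tp a.val k, 0, 0) := by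
  match k, hk with
  | 0, _ => rfl
  | 1, _ => rfl
  | 2, _ => rfl

theorem pos_n2 (k : ℕ) (hk : k < 6) (a b : Fin N) :
    pos (n2 k a b) = (2 * a.val + 2, sp b.val k, 0) := by
  match k, hk with
  | 0, _ => rfl
  | 1, _ => rfl
  | 2, _ => rfl
  | 3, _ => rfl
  | 4, _ => rfl
  | 5, _ => rfl

theorem pos_n3 (s : Fin 3) (k : ℕ) (hk : k < 6) (a b c : Fin N) :
    pos (n3 s k a b c) = (2 * a.val + 2, 5 * b.val + 2 * s.val + 1, sp c.val k) := by
  match k, hk with
  | 0, _ => rfl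
  | 1, _ => rfl
  | 2, _ => rfl
  | 3, _ => rfl
  | 4, _ => rfl
  | 5, _ => rfl

theorem desc_edge (e : Ed (Fin N)) : Desc (pos e.tl) (pos e.hd) := by
  cases e with
  | e1 i a =>
    have h : Tt i.val < 3 ∧ Th i.val < 3 := by fin_cases i <;> decide
    exact Or.inl ⟨a.val, _, _, h.1, h.2, pos_n1 _ h.1 a, pos_n1 _ h.2 a⟩
  | e2 i a b =>
    have h := A_adj i
    have h' := adj_facts _ h.1 _ h.1
    exact Or.inr (Or.inl ⟨_, b.val, _, h.1, pos_n2 _ h'.1 a b, pos_n2 _ h'.2.1 a b⟩)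
  | e3 s i a b c =>
    have h := A_adj i
    have h' := adj_facts _ h.1 _ h.1
    by_cases hs : s.val = 1
    · refine Or.inr (Or.inr ⟨2 * a.val + 2, 5 * b.val + 2 * s.val + 1, c.val, _, h.2, ?_, ?_⟩)
      · show pos (n3 s (if s.val = 1 then Ah i.val else At i.val) a b c) = _
        rw [if_pos hs]
        exact pos_n3 s _ h'.2.1 a b c
      · show pos (n3 s (if s.val = 1 then At i.val else Ah i.val) a b c) = _
        rw [if_pos hs]
        exact pos_n3 s _ h'.1 a b c
    · refine Or.inr (Or.inr ⟨2 * a.val + 2, 5 * b.val + 2 * s.val + 1, c.val, _, h.1, ?_, ?_⟩)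
      · show pos (n3 s (if s.val = 1 then Ah i.val else At i.val) a b c) = _
        rw [if_neg hs]
        exact pos_n3 s _ h'.1 a b c
      · show pos (n3 s (if s.val = 1 then At i.val else Ah i.val) a b c) = _
        rw [if_neg hs]
        exact pos_n3 s _ h'.2.1 a b c

theorem desc_cross {P Q R S : ℕ × ℕ × ℕ} (h : Desc P Q) (h' : Desc R S) (h1 : lx P R)
    (h2 : lx R Q) (h3 : lx Q S) : False := by
  rcases h with ⟨a, i, j, h4, h5, rfl, rfl⟩ | ⟨t, b, p, h4, rfl, rfl⟩ | ⟨t, u, b, p, h4, rfl, rfl⟩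
  · rcases h' with ⟨a', i', j', h4', h5', rfl, rfl⟩ | ⟨t', b', p', h4', rfl, rfl⟩ |
      ⟨t', u', b', p', h4', rfl, rfl⟩
    · simp only [lx, tp] at h1 h2 h3
      rcases lt_trichotomy a a' with ha | ha | ha <;> split_ifs at h1 h2 h3 <;> omega
    · simp only [lx] at h1 h2 h3
      omega
    · simp only [lx] at h1 h2 h3
      omega
  · rcases h' with ⟨a', i', j', h4', h5', rfl, rfl⟩ | ⟨t', b', p', h4', rfl, rfl⟩ |
      ⟨t', u', b', p', h4', rfl, rfl⟩
    · simp only [lx] at h1 h2 h3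
      omega
    · have := clus h4 h4' b b'
      simp only [lx] at h1 h2 h3
      omega
    · simp only [lx] at h1 h2 h3
      omega
  · rcases h' with ⟨a', i', j', h4', h5', rfl, rfl⟩ | ⟨t', b', p', h4', rfl, rfl⟩ |
      ⟨t', u', b', p', h4', rfl, rfl⟩
    · simp only [lx] at h1 h2 h3
      omega
    · simp only [lx] at h1 h2 h3
      omega
    · have := clus h4 h4' b b'
      simp only [lx] at h1 h2 h3
      omega

theorem G_outer (N : ℕ) : Outerplanar (GE (Fin N)) := by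
  refine ⟨fun p q => lx (pos p) (pos q), ?_, ?_⟩
  · exact
      { trichotomous := fun p q h1 h2 => by
          rcases lx_tri (pos p) (pos q) with h | h | h
          · exact absurd h h1
          · exact pos_inj p q h
          · exact absurd h h2
        irrefl := fun p => lx_irrefl _
        trans := fun p q r => lx_trans }
  · intro a b c d h h' hc
    have hd : ∀ a b : Vx (Fin N), (GE (Fin N) a b ∨ GE (Fin N) b a) → Desc (pos a) (pos b) := by
      rintro a b (⟨e, rfl, rfl⟩ | ⟨e, rfl, rfl⟩)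
      · exact desc_edge e
      · exact (desc_edge e).symm
    exact desc_cross (hd a b h) (hd c d h') hc.1 hc.2.1 hc.2.2

end Pool.Agent.LibSN3
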