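import Mathlib

/-!
# A Ramsey theorem for finitely many relations of six variables

Iterated ultrafilter quantifiers; compactness.
-/

set_option autoImplicit false

namespace Pool.Agent.LibSN3

open Filter

/-- iterated ultrafilter quantifier over `k` variables, the first variable is the outermost one -/
def QQ (U : Ultrafilter ℕ) : (k : ℕ) → ((Fin k → ℕ) → Prop) → Prop
  | 0, φ => φ fun i => i.elim0
  | k + 1, φ => ∀ᶠ m in (U : Filter ℕ), QQ U k fun σ => φ (Fin.cons m σ)

variable {U : Ultrafilter ℕ}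

theorem QQ_mono {k : ℕ} {φ ψ : (Fin k → ℕ) → Prop} (h : ∀ σ, φ σ → ψ σ) (hφ : QQ U k φ) :
    QQ U k ψ := by
  induction k with
  | zero => exact h _ hφ
  | succ k ih =>
    have h1 : ∀ᶠ m in (U : Filter ℕ), QQ U k fun σ => φ (Fin.cons m σ) := hφ
    exact h1.mono fun m hm => ih (fun σ => h (Fin.cons m σ)) hm

theorem QQ_congr {k : ℕ} {φ ψ : (Fin k → ℕ) → Prop} (h : ∀ σ, φ σ ↔ ψ σ) :
    QQ U k φ ↔ QQ U k ψ :=
  ⟨QQ_mono fun σ => (h σ).1, QQ_mono fun σ => (h σ).2⟩

theorem QQ_not {k : ℕ} {φ : (Fin k → ℕ) → Prop} : QQ U k (fun σ => ¬ φ σ) ↔ ¬ QQ U k φ := by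
  induction k with
  | zero => exact Iff.rfl
  | succ k ih =>
    show (∀ᶠ m in (U : Filter ℕ), QQ U k fun σ => ¬ φ (Fin.cons m σ)) ↔
      ¬ ∀ᶠ m in (U : Filter ℕ), QQ U k fun σ => φ (Fin.cons m σ)
    rw [← Ultrafilter.eventually_not]
    exact Filter.eventually_congr (Filter.Eventually.of_forall fun m => ih)

theorem QQ_all {ι : Type} [Finite ι] {k : ℕ} {φ : ι → (Fin k → ℕ) → Prop}
    (h : ∀ i, QQ U k (φ i)) : QQ U k fun σ => ∀ i, φ i σ := by
  induction k with
  | zero => exact h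
  | succ k ih =>
    have h1 : ∀ᶠ m in (U : Filter ℕ), ∀ i, QQ U k fun σ => φ i (Fin.cons m σ) :=
      Filter.eventually_all.2 h
    exact h1.mono fun m hm => ih hm

theorem QQ_true {k : ℕ} {φ : (Fin k → ℕ) → Prop} (h : ∀ σ, φ σ) : QQ U k φ := by
  induction k with
  | zero => exact h _
  | succ k ih => exact Filter.Eventually.of_forall fun m => ih fun σ => h _

theorem QQ_exists {k : ℕ} {φ : (Fin k → ℕ) → Prop} (h : QQ U k φ) : ∃ σ, φ σ := by
  by_contra hc
  push Not at hc
  exact (QQ_not.1 (QQ_true hc)) h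

theorem QQ_coord {P : ℕ → Prop} (hP : ∀ᶠ m in (U : Filter ℕ), P m) (k : ℕ) :
    QQ U k fun σ => ∀ i, P (σ i) := by
  induction k with
  | zero => exact fun i => i.elim0
  | succ k ih =>
    refine hP.mono fun m hm => QQ_mono (fun σ hσ => ?_) ih
    intro i
    refine Fin.cases ?_ (fun i => ?_) i
    · rw [Fin.cons_zero]; exact hm
    · rw [Fin.cons_succ]; exact hσ i

theorem QQ_inj (hU : ∀ m : ℕ, ∀ᶠ x in (U : Filter ℕ), x ≠ m) (k : ℕ) :
    QQ U k fun σ => Function.Injective σ := by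
  induction k with
  | zero => exact fun i => i.elim0
  | succ k ih =>
    refine Filter.Eventually.of_forall fun m => ?_
    have h1 : QQ U k fun σ => ∀ b : Bool, if b then Function.Injective σ else ∀ i, σ i ≠ m := by
      refine QQ_all fun b => ?_
      cases b
      · exact QQ_mono (fun σ hσ => hσ) (QQ_coord (hU m) k)
      · exact QQ_mono (fun σ hσ => hσ) ih
    refine QQ_mono (fun σ hσ => ?_) h1
    have h2 : Function.Injective σ := hσ true
    have h3 : ∀ i, σ i ≠ m := hσ false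
    show Function.Injective (Fin.cons m σ : Fin (k + 1) → ℕ)
    rw [Fin.cons_injective_iff]
    exact ⟨fun ⟨i, hi⟩ => h3 i hi, h2⟩

/-- marginals -/
theorem QQ_comp {n : ℕ} : ∀ {k : ℕ} (e : Fin k → Fin n), StrictMono e →
    ∀ φ : (Fin k → ℕ) → Prop, QQ U n (fun σ => φ (σ ∘ e)) ↔ QQ U k φ := by
  induction n with
  | zero =>
    intro k e he φ
    have hk : k = 0 := by
      rcases Nat.eq_zero_or_pos k with h | h
      · exact h
      · exact (e ⟨0, h⟩).elim0
    subst hk
    show φ _ ↔ φ _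
    rw [Subsingleton.elim ((fun i : Fin 0 => i.elim0) ∘ e) fun i : Fin 0 => i.elim0]
  | succ n ih =>
    intro k e he φ
    cases k with
    | zero =>
      have h0 : ∀ σ : Fin 0 → ℕ, φ σ ↔ φ fun i => i.elim0 := fun σ => by
        rw [Subsingleton.elim σ fun i : Fin 0 => i.elim0]
      show QQ U (n + 1) (fun σ => φ (σ ∘ e)) ↔ φ fun i => i.elim0
      constructor
      · intro h
        obtain ⟨σ, hσ⟩ := QQ_exists h
        exact (h0 _).1 hσ
      · intro h
        exact QQ_true fun σ => (h0 _).2 h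
    | succ k =>
      by_cases h0 : e 0 = 0
      · -- the first variable is used
        have hpos : ∀ i : Fin k, e i.succ ≠ 0 := fun i h => by
          have := he (Fin.succ_pos i)
          rw [h0, h] at this
          exact lt_irrefl _ this
        have he' : StrictMono fun i : Fin k => (e i.succ).pred (hpos i) := by
          intro i j hij
          have := he (Fin.succ_lt_succ_iff.2 hij)
          exact Fin.pred_lt_pred_iff.2 this
        show (∀ᶠ m in (U : Filter ℕ), QQ U n fun σ => φ ((Fin.cons m σ : Fin (n + 1) → ℕ) ∘ e)) ↔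
          ∀ᶠ m in (U : Filter ℕ), QQ U k fun σ => φ (Fin.cons m σ)
        refine Filter.eventually_congr (Filter.Eventually.of_forall fun m => ?_)
        rw [← ih _ he' fun τ => φ (Fin.cons m τ)]
        refine QQ_congr fun σ => ?_
        have : (Fin.cons m σ : Fin (n + 1) → ℕ) ∘ e =
            Fin.cons m (σ ∘ fun i : Fin k => (e i.succ).pred (hpos i)) := by
          funext i
          refine Fin.cases ?_ (fun i => ?_) i
          · show (Fin.cons m σ : Fin (n + 1) → ℕ) (e 0) = _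
            rw [h0, Fin.cons_zero, Fin.cons_zero]
          · show (Fin.cons m σ : Fin (n + 1) → ℕ) (e i.succ) = _
            rw [Fin.cons_succ]
            show _ = σ ((e i.succ).pred (hpos i))
            conv_lhs => rw [← Fin.succ_pred (e i.succ) (hpos i), Fin.cons_succ]
        rw [this]
      · have hpos : ∀ i : Fin (k + 1), e i ≠ 0 := fun i h => by
          rcases Fin.eq_zero_or_eq_succ i with h1 | ⟨j, h1⟩
          · rw [h1] at h; exact h0 h
          · have := he (show (0 : Fin (k + 1)) < i by rw [h1]; exact Fin.succ_pos j)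
            rw [h] at this
            exact absurd this (Fin.not_lt_zero _)
        have he' : StrictMono fun i : Fin (k + 1) => (e i).pred (hpos i) := by
          intro i j hij
          exact Fin.pred_lt_pred_iff.2 (he hij)
        show (∀ᶠ m in (U : Filter ℕ), QQ U n fun σ => φ ((Fin.cons m σ : Fin (n + 1) → ℕ) ∘ e)) ↔
          QQ U (k + 1) φ
        have h2 : ∀ m : ℕ, (QQ U n fun σ => φ ((Fin.cons m σ : Fin (n + 1) → ℕ) ∘ e)) ↔
            QQ U (k + 1) φ := by
          intro m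
          rw [← ih _ he' φ]
          refine QQ_congr fun σ => ?_
          have : (Fin.cons m σ : Fin (n + 1) → ℕ) ∘ e =
              σ ∘ fun i : Fin (k + 1) => (e i).pred (hpos i) := by
            funext i
            show (Fin.cons m σ : Fin (n + 1) → ℕ) (e i) = σ ((e i).pred (hpos i))
            conv_lhs => rw [← Fin.succ_pred (e i) (hpos i), Fin.cons_succ]
          rw [this]
        constructor
        · intro h
          obtain ⟨m, hm⟩ := h.exists
          exact (h2 m).1 hm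
        · intro h
          exact Filter.Eventually.of_forall fun m => (h2 m).2 h

/-- Homogeneous sets for finitely many relations of six variables (infinite form). -/
theorem extract {ι : Type} [Finite ι] (hU : ∀ m : ℕ, ∀ᶠ x in (U : Filter ℕ), x ≠ m)
    (φ : ι → (Fin 6 → ℕ) → Prop) (n : ℕ) : ∃ σ : Fin n → ℕ, Function.Injective σ ∧
      ∀ (j : ι) (e : Fin 6 → Fin n), StrictMono e → (φ j (σ ∘ e) ↔ QQ U 6 (φ j)) := by
  have h1 : QQ U n fun σ => ∀ q : ι × (Fin 6 → Fin n), StrictMono q.2 →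
      (φ q.1 (σ ∘ q.2) ↔ QQ U 6 (φ q.1)) := by
    refine QQ_all fun q => ?_
    by_cases hq : StrictMono q.2
    · by_cases h : QQ U 6 (φ q.1)
      · exact QQ_mono (fun σ hσ _ => ⟨fun _ => h, fun _ => hσ⟩) ((QQ_comp q.2 hq (φ q.1)).2 h)
      · refine QQ_mono (fun σ hσ _ => ⟨fun h' => absurd h' hσ, fun h' => absurd h' h⟩)
          (QQ_not.2 fun h' => h ((QQ_comp q.2 hq (φ q.1)).1 h'))
    · exact QQ_true fun σ h => absurd h hq
  have h2 : QQ U n fun σ => ∀ b : Bool, if b then Function.Injective σ else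
      ∀ q : ι × (Fin 6 → Fin n), StrictMono q.2 → (φ q.1 (σ ∘ q.2) ↔ QQ U 6 (φ q.1)) := by
    refine QQ_all fun b => ?_
    cases b
    · exact QQ_mono (fun σ hσ => hσ) h1
    · exact QQ_mono (fun σ hσ => hσ) (QQ_inj hU n)
  obtain ⟨σ, hσ⟩ := QQ_exists h2
  exact ⟨σ, hσ true, fun j e he => (hσ false) (j, e) he⟩

/-- A Ramsey theorem for finitely many relations of six variables. -/
theorem ramsey6 (ι : Type) [Finite ι] (n : ℕ) : ∃ N : ℕ,
    ∀ φ : ι → (Fin 6 → Fin (N + 1)) → Prop, ∃ σ : Fin n → Fin (N + 1), Function.Injective σ ∧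
      ∀ (j : ι) (e e' : Fin 6 → Fin n), StrictMono e → StrictMono e' →
        (φ j (σ ∘ e) ↔ φ j (σ ∘ e')) := by
  by_contra hc
  push Not at hc
  choose φ hφ using hc
  obtain ⟨U, hUdef⟩ : ∃ U : Ultrafilter ℕ, U = Filter.hyperfilter ℕ := ⟨_, rfl⟩
  have hU : ∀ m : ℕ, ∀ᶠ x in (U : Filter ℕ), m ≤ x := by
    intro m
    rw [hUdef]
    exact (Filter.eventually_ge_atTop m).filter_mono Nat.hyperfilter_le_atTop
  obtain ⟨clip, hclip⟩ : ∃ clip : (N : ℕ) → ℕ → Fin (N + 1), ∀ N m, m ≤ N → (clip N m).val = m :=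
    ⟨fun N m => ⟨m % (N + 1), Nat.mod_lt _ (Nat.succ_pos N)⟩, fun N m h =>
      Nat.mod_eq_of_lt (Nat.lt_succ_of_le h)⟩
  obtain ⟨σ, hσ, hind⟩ := extract (U := U)
    (fun m => (hU (m + 1)).mono fun x hx => by omega)
    (fun (j : ι) (τ : Fin 6 → ℕ) => ∀ᶠ N in (U : Filter ℕ), φ N j (fun i => clip N (τ i))) n
  have hA : ∀ q : ι × (Fin 6 → Fin n), ∀ᶠ M in (U : Filter ℕ),
      (φ M q.1 (fun i => clip M ((σ ∘ q.2) i)) ↔
        ∀ᶠ N in (U : Filter ℕ), φ N q.1 (fun i => clip N ((σ ∘ q.2) i))) := by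
    intro q
    by_cases h : ∀ᶠ N in (U : Filter ℕ), φ N q.1 (fun i => clip N ((σ ∘ q.2) i))
    · exact h.mono fun M hM => ⟨fun _ => h, fun _ => hM⟩
    · exact (Ultrafilter.eventually_not.2 h).mono fun M hM =>
        ⟨fun h' => absurd h' hM, fun h' => absurd h' h⟩
  have hC : ∀ᶠ N in (U : Filter ℕ), ∀ i : Fin n, σ i ≤ N :=
    Filter.eventually_all.2 fun i => hU (σ i)
  obtain ⟨N, hN1, hN2⟩ := ((Filter.eventually_all.2 hA).and hC).exists
  have hinj : Function.Injective fun i => clip N (σ i) := by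
    intro i j h
    have h1 : (clip N (σ i)).val = (clip N (σ j)).val := congrArg Fin.val h
    rw [hclip N _ (hN2 i), hclip N _ (hN2 j)] at h1
    exact hσ h1
  obtain ⟨j, e, e', he, he', h⟩ := hφ N (fun i => clip N (σ i)) hinj
  have h1 : φ N j ((fun i => clip N (σ i)) ∘ e) ↔ φ N j ((fun i => clip N (σ i)) ∘ e') :=
    (hN1 (j, e)).trans (((hind j e he).trans (hind j e' he').symm).trans (hN1 (j, e')).symm)
  rcases h with ⟨h2, h3⟩ | ⟨h2, h3⟩
  · exact h3 (h1.1 h2)
  · exact h2 (h1.2 h3)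

end Pool.Agent.LibSN3
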