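import Pool.Agent.LibSN3.Eval
import Pool.Agent.LibSN3.Outer
import Pool.Agent.LibSN3.Rams

/-!
# The main theorem
-/

set_option autoImplicit false

namespace Pool.Agent.LibSN3

theorem vmap_inj {α β : Type} {f : α → β} (hf : Function.Injective f) :
    Function.Injective (Vx.map f) := by
  intro p q h
  cases p <;> cases q <;> simp_all [Vx.map] <;>
    first
      | exact hf h
      | exact ⟨hf h.1, hf h.2⟩
      | exact ⟨hf h.1, hf h.2.1, hf h.2.2⟩
      | exact hf h.2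
      | exact ⟨hf h.2.1, hf h.2.2⟩
      | exact ⟨hf h.2.2.1, hf h.2.2.2.1, hf h.2.2.2.2⟩

theorem vmap_map {α β γ : Type} (f : α → β) (g : β → γ) (p : Vx α) :
    (p.map f).map g = p.map (g ∘ f) := by
  cases p <;> rfl

theorem emap_map {α β γ : Type} (f : α → β) (g : β → γ) (p : Ed α) :
    (p.map f).map g = p.map (g ∘ f) := by
  cases p <;> rfl

/-- the relations to which Ramsey's theorem is applied -/
def Phi {N : ℕ} (lt : Vx (Fin (N + 1)) → Vx (Fin (N + 1)) → Prop)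
    (col : Vx (Fin (N + 1)) → Vx (Fin (N + 1)) → Fin 4)
    (j : (Vx (Fin 6) × Vx (Fin 6)) ⊕ (Ed (Fin 6) × Fin 4)) (τ : Fin 6 → Fin (N + 1)) : Prop :=
  match j with
  | Sum.inl p => lt (p.1.map τ) (p.2.map τ)
  | Sum.inr q => col (q.1.map τ).tl (q.1.map τ).hd = q.2

theorem exists_bad : ∃ N : ℕ, ¬ HasStackLayout (GE (Fin (N + 1))) 4 := by
  obtain ⟨N, hN⟩ := ramsey6 ((Vx (Fin 6) × Vx (Fin 6)) ⊕ (Ed (Fin 6) × Fin 4)) 45
  refine ⟨N, ?_⟩
  rintro ⟨lt, col, htot, htop, hnc⟩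
  obtain ⟨σ, hσ, hind⟩ := hN (Phi lt col)
  obtain ⟨e0, he0⟩ : ∃ e0 : Fin 6 → Fin 45, StrictMono e0 :=
    ⟨fun i => ⟨i.val, by omega⟩, fun i j h => h⟩
  obtain ⟨σ', hσ'⟩ : ∃ σ' : ℕ → Fin (N + 1), ∀ i : ℕ, ∀ h : i < 45, σ' i = σ ⟨i, h⟩ :=
    ⟨fun i => if h : i < 45 then σ ⟨i, h⟩ else 0, fun i h => dif_pos h⟩
  have hcomp : ∀ e : Fin 6 → ℕ, StrictMono e → (∀ i, e i < 45) →
      ∃ e' : Fin 6 → Fin 45, StrictMono e' ∧ σ' ∘ e = σ ∘ e' := by
    intro e he h45
    refine ⟨fun i => ⟨e i, h45 i⟩, fun i j h => he h, ?_⟩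
    funext i
    exact hσ' (e i) (h45 i)
  have hτ0 : Function.Injective (σ ∘ e0) := hσ.comp he0.injective
  have htr : ∀ x y z, lt x y → lt y z → lt x z := fun x y z h1 h2 => htot.toIsTrans.trans x y z h1 h2
  have hir : ∀ x, ¬ lt x x := fun x => htot.toIrrefl.irrefl x
  refine no_mod
    { L0 := fun P Q => lt (P.map (σ ∘ e0)) (Q.map (σ ∘ e0))
      C0 := fun E k => (col (E.map (σ ∘ e0)).tl (E.map (σ ∘ e0)).hd).val = k
      L := fun p q => lt (p.map σ') (q.map σ')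
      C := fun e k => (col (e.map σ').tl (e.map σ').hd).val = k
      hL := ?_
      hC := ?_
      tri := ?_
      cyc := ?_
      edge := ?_
      some4 := ?_
      cross := ?_ }
  · intro P Q e he h45
    obtain ⟨e', he', hE⟩ := hcomp e he h45
    have h := hind (Sum.inl (P, Q)) e' e0 he' he0
    show lt ((P.map e).map σ') ((Q.map e).map σ') ↔ _
    rw [vmap_map, vmap_map, hE]
    exact h
  · intro E k e he h45
    obtain ⟨e', he', hE⟩ := hcomp e he h45
    show (col ((E.map e).map σ').tl ((E.map e).map σ').hd).val = k ↔ _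
    rw [emap_map, hE]
    by_cases hk : k < 4
    · have h := hind (Sum.inr (E, ⟨k, hk⟩)) e' e0 he' he0
      have h1 : ∀ x : Fin 4, x.val = k ↔ x = ⟨k, hk⟩ := fun x => by
        rw [Fin.ext_iff]
      rw [h1, h1]
      exact h
    · have h1 : ∀ x : Fin 4, ¬ x.val = k := fun x hx => hk (by omega)
      exact ⟨fun h => absurd h (h1 _), fun h => absurd h (h1 _)⟩
  · intro P Q hPQ
    have h1 : P.map (σ ∘ e0) ≠ Q.map (σ ∘ e0) := fun h => hPQ (vmap_inj hτ0 h)
    by_contra h2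
    push Not at h2
    exact h1 (htot.toTrichotomous.trichotomous _ _ h2.1 h2.2)
  · intro x y z h1 h2 h3
    exact hir _ (htr _ _ _ h1 (htr _ _ _ h2 h3))
  · intro e
    show lt (e.tl.map σ') (e.hd.map σ')
    rw [← tl_map, ← hd_map]
    exact htop _ _ ⟨e.map σ', rfl, rfl⟩
  · intro E
    have := (col (E.map (σ ∘ e0)).tl (E.map (σ ∘ e0)).hd).isLt
    omega
  · intro e f k h1 h2 h3 h4 h5
    have h6 : col (e.map σ').tl (e.map σ').hd = col (f.map σ').tl (f.map σ').hd :=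
      Fin.ext (h1.trans h2.symm)
    refine hnc _ _ _ _ ⟨e.map σ', rfl, rfl⟩ ⟨f.map σ', rfl, rfl⟩ h6 ⟨?_, ?_, ?_⟩
    · rw [tl_map, tl_map]; exact h3
    · rw [tl_map, hd_map]; exact h4
    · rw [hd_map, hd_map]; exact h5

/-- There is an outerplanar directed acyclic graph with no 4-stack layout. -/
theorem main : ∃ (V : Type) (_ : Finite V) (E : V → V → Prop),
    IsDAG E ∧ Outerplanar E ∧ ¬ HasStackLayout E 4 := by
  obtain ⟨N, hN⟩ := exists_bad
  exact ⟨Vx (Fin (N + 1)), inferInstance, GE (Fin (N + 1)), G_dag _, G_outer _, hN⟩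

end Pool.Agent.LibSN3
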